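import Pool.Agent.U858.UF.Mil0
import Pool.Agent.Y217.KS.DIAG
import Pool.Agent.Y131.KS.GS
import Pool.Agent.U14.UF.Bas
import Pool.Agent.U14.UF.Jobs

set_option autoImplicit false

/-!
Project UF (helper14), package MIL: Milgram's formula for `R4` with the form `2 ℓ(β x y)`.
-/

namespace Pool.Agent.U858.UF

open Matrix Pool.Agent.U14.UF Pool.Agent.U14.UF.R4

/-- coordinates -/
def tv (x : R4) : Fin 4 → ℤ := ![x.a, x.b, x.c, x.d]

/-- the inverse -/
def vt (v : Fin 4 → ℤ) : R4 := ⟨v 0, v 1, v 2, v 3⟩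

theorem vt_tv (x : R4) : vt (tv x) = x := rfl

theorem tv_vt (v : Fin 4 → ℤ) : tv (vt v) = v := by
  funext i
  fin_cases i <;> rfl

theorem tv_inj : Function.Injective tv := fun x y h => by rw [← vt_tv x, h, vt_tv]

/-- the matrix of multiplication by `x` -/
def mm (x : R4) : Matrix (Fin 4) (Fin 4) ℤ :=
  !![x.a, x.b, x.c, x.d;
     x.b, x.a + x.b, x.d, x.c + x.d;
     x.c, x.d, x.a + 2 * x.c, x.b + 2 * x.d;
     x.d, x.c + x.d, x.b + 2 * x.d, x.a + x.b + 2 * (x.c + x.d)]

theorem mm_mulVec (x y : R4) : mm x *ᵥ tv y = tv (x * y) := by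
  funext i
  fin_cases i <;> simp [mm, tv, Matrix.mulVec, dotProduct, Fin.sum_univ_four] <;> ring

theorem mm_symm (x : R4) : (mm x).IsSymm := by
  ext i j
  fin_cases i <;> fin_cases j <;> simp [mm]

theorem tv_dot (x y : R4) : tv x ⬝ᵥ tv y = (x * y).a := by
  simp [tv, dotProduct, Fin.sum_univ_four]
  ring

theorem ext_mulVec {A B : Matrix (Fin 4) (Fin 4) ℤ} (h : ∀ y : R4, A *ᵥ tv y = B *ᵥ tv y) : A = B := by
  apply Matrix.ext_of_mulVec_single
  intro i
  have := h (vt (Pi.single i 1))
  rwa [tv_vt] at this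

theorem mm_mul (x y : R4) : mm x * mm y = mm (x * y) := by
  refine ext_mulVec fun z => ?_
  rw [← mulVec_mulVec, mm_mulVec, mm_mulVec, mm_mulVec, mul_assoc]

theorem mm_int (n : ℤ) : mm ((n : ℤ) : R4) = n • (1 : Matrix (Fin 4) (Fin 4) ℤ) := by
  ext i j
  fin_cases i <;> fin_cases j <;> simp [mm]

theorem mm_two (x : R4) (i : Fin 4) : Even (mm (2 * x) i i) := by
  have h2 : (2 : R4) * x = x + x := two_mul x
  rw [h2]
  fin_cases i
  · exact ⟨x.a, by simp [mm]⟩
  · exact ⟨x.a + x.b, by simp [mm]; ring⟩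
  · exact ⟨x.a + 2 * x.c, by simp [mm]; ring⟩
  · exact ⟨x.a + x.b + 2 * (x.c + x.d), by simp [mm]; ring⟩

/-- package MIL -/
theorem t_MIL : S_MIL := by
  intro β hβ T hT
  classical
  have hβ0 : β ≠ 0 := pos_ne hβ
  have hnm : nm β ≠ 0 := by
    intro h0
    have h1 := mul_adj β
    rw [h0, Int.cast_zero] at h1
    obtain ⟨l, t, hl, ht⟩ := rt_exists
    have h2 : ev l t (adj β) ≠ 0 := by
      have h3 : adj β = 0 ∨ adj β ≠ 0 := em _
      rcases h3 with h3 | h3
      · exfalso
        -- `adj β = 0` is impossible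
        have c1 : ∀ y : R4, cj1 y = 0 → y = 0 := by
          intro y hy
          have e1 := congrArg R4.a hy
          have e2 := congrArg R4.b hy
          have e3 := congrArg R4.c hy
          have e4 := congrArg R4.d hy
          simp only [cj1, zero_a, zero_b, zero_c, zero_d] at e1 e2 e3 e4
          ext
          · show y.a = 0; omega
          · show y.b = 0; omega
          · show y.c = 0; omega
          · show y.d = 0; omega
        have c2 : ∀ y : R4, cj2 y = 0 → y = 0 := by
          intro y hy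
          have e1 := congrArg R4.a hy
          have e2 := congrArg R4.b hy
          have e3 := congrArg R4.c hy
          have e4 := congrArg R4.d hy
          simp only [cj2, zero_a, zero_b, zero_c, zero_d] at e1 e2 e3 e4
          ext
          · show y.a = 0; omega
          · show y.b = 0; omega
          · show y.c = 0; omega
          · show y.d = 0; omega
        unfold adj at h3
        rcases dom _ _ h3 with h4 | h4
        · rcases dom _ _ h4 with h5 | h5
          · exact hβ0 (c1 _ h5)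
          · exact hβ0 (c2 _ h5)
        · exact hβ0 (c2 _ (c1 _ h4))
      · exact ev_ne h3 hl ht
    rcases dom _ _ h1 with h3 | h3
    · exact hβ0 h3
    · rw [h3, ev_zero] at h2
      exact h2 rfl
  set A := mm (2 * β) with hA
  set A' := mm (adj β) with hA'
  have hAA : A * A' = (2 * nm β) • (1 : Matrix (Fin 4) (Fin 4) ℤ) := by
    rw [hA, hA', mm_mul, mul_assoc, mul_adj, ← mm_int]
    congr 1
    push_cast
    rfl
  have hN : 2 * nm β ≠ 0 := mul_ne_zero two_ne_zero hnm
  have hdet : A.det ≠ 0 := by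
    intro h0
    have h1 := congrArg Matrix.det hAA
    rw [Matrix.det_mul, h0, zero_mul, Matrix.det_smul, Matrix.det_one, mul_one] at h1
    exact pow_ne_zero _ hN h1.symm
  have hsym : A.IsSymm := mm_symm _
  have heven : ∀ i, Even (A i i) := fun i => mm_two β i
  obtain ⟨P, a, hP, ha0, hE, -⟩ := Pool.Agent.Y217.KS.diag 4 A hsym heven hdet
  have ha : ∀ i, 0 < a i := by
    intro i
    have h1 := congrFun (congrFun hE i) i
    rw [diagonal_apply_eq] at h1
    set p : R4 := vt (fun j => P j i) with hp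
    have hcol : (fun j => P j i) = tv p := by rw [hp, tv_vt]
    have hp0 : p ≠ 0 := by
      intro h0
      rw [h0] at hcol
      apply hP
      refine Matrix.det_eq_zero_of_column_eq_zero i fun j => ?_
      have h9 := congrFun hcol j
      change P j i = _ at h9
      rw [h9]
      fin_cases j <;> rfl
    have h2 : (Pᵀ * A * P) i i = (fun j => P j i) ⬝ᵥ (A *ᵥ (fun j => P j i)) := by
      rw [Matrix.mul_assoc, Matrix.mul_apply_eq_vecMul, vecMul, dotProduct, dotProduct]
      refine Finset.sum_congr rfl fun j _ => ?_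
      rw [transpose_apply, Matrix.mul_apply]
      rfl
    rw [h2, hcol, hA, mm_mulVec, tv_dot] at h1
    have h3 : Pos (β * (p * p)) := by
      intro l t hl ht
      rw [ev_mul hl ht, ev_mul hl ht]
      have h4 := hβ l t hl ht
      have h5 := ev_ne hp0 hl ht
      exact mul_pos h4 (mul_self_pos.2 h5)
    have h6 := a_pos h3
    have h7 : p * (2 * β * p) = 2 * (β * (p * p)) := by ring
    rw [h7, two_mul, add_a] at h1
    linarith
  have hT' : ∀ z : Fin 4 → ℤ, ∃! t, t ∈ T.image tv ∧ ∃ v, z - t = A *ᵥ v := by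
    intro z
    obtain ⟨t, ⟨ht, hd⟩, huniq⟩ := hT (vt z)
    refine ⟨tv t, ⟨Finset.mem_image_of_mem _ ht, ?_⟩, ?_⟩
    · obtain ⟨v, hv⟩ := hd
      refine ⟨tv v, ?_⟩
      rw [hA, mm_mulVec, ← hv]
      funext i
      fin_cases i <;> simp [tv, vt]
    · rintro y ⟨hy, v, hv⟩
      rw [Finset.mem_image] at hy
      obtain ⟨s, hs, rfl⟩ := hy
      have h1 : s = t := by
        refine huniq s ⟨hs, vt v, ?_⟩
        apply tv_inj
        rw [← mm_mulVec, tv_vt, ← hA, ← hv]
        funext i
        fin_cases i <;> simp [tv, vt]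
      rw [h1]
  obtain ⟨ρ, hρ, hsum⟩ := milgen Pool.Agent.Y131.KS.gs A A' P a (2 * nm β) hsym heven hAA hN hP ha hE (T.image tv) hT'
  refine ⟨ρ, hρ, ?_⟩
  rw [Finset.sum_image (fun x _ y _ hxy => tv_inj hxy)] at hsum
  have e1 : Complex.exp (((4 : ℕ) : ℂ) * (Real.pi * Complex.I / 4)) = -1 := by
    rw [show ((4 : ℕ) : ℂ) * (Real.pi * Complex.I / 4) = Real.pi * Complex.I by push_cast; ring]
    exact Complex.exp_pi_mul_I
  rw [e1] at hsum
  rw [show -(ρ : ℂ) = ρ * (-1) by ring, ← hsum]
  refine Finset.sum_congr rfl fun t _ => ?_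
  have h1 : tv t ⬝ᵥ (A' *ᵥ tv t) = (t ^ 2 * adj β).a := by
    rw [hA', mm_mulVec, tv_dot]
    congr 1
    ring
  rw [h1]
  congr 2
  push_cast
  ring

end Pool.Agent.U858.UF
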