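import Pool.Agent.Y143.KS.MIL

set_option autoImplicit false

/-!
Project UF (helper14), package MIL, part 1: Milgram's formula for a positive definite even lattice which is diagonal on a sublattice
of finite index, as a sum over a complete residue system of the dual modulo the lattice.
-/

namespace Pool.Agent.U858.UF

open Matrix Pool.Agent.Y466.KS Pool.Agent.Y143.KS

theorem milgen (h : GS) {r : ℕ} (A A' P : Matrix (Fin r) (Fin r) ℤ) (a : Fin r → ℤ) (N : ℤ)
    (hA : A.IsSymm) (he : ∀ i, Even (A i i)) (hAA : A * A' = N • (1 : Matrix (Fin r) (Fin r) ℤ)) (hN : N ≠ 0)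
    (hP : P.det ≠ 0) (ha : ∀ i, 0 < a i) (hE : Pᵀ * A * P = diagonal (fun i => 2 * a i))
    (T : Finset (Fin r → ℤ)) (hT : ∀ z : Fin r → ℤ, ∃! t, t ∈ T ∧ ∃ v, z - t = A *ᵥ v) :
    ∃ ρ : ℝ, 0 < ρ ∧ ∑ t ∈ T, Complex.exp (2 * Real.pi * Complex.I * (((t ⬝ᵥ (A' *ᵥ t) : ℤ) : ℂ) / (2 * (N : ℂ)))) =
      ρ * Complex.exp ((r : ℂ) * (Real.pi * Complex.I / 4)) := by
  classical
  have ha0 : ∀ i, a i ≠ 0 := fun i => (ha i).ne'
  obtain ⟨M, hM0, hMa⟩ : ∃ M : ℤ, 0 < M ∧ ∀ i, ∃ c : ℤ, M = 2 * a i * c := by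
    refine ⟨∏ i, |2 * a i|, Finset.prod_pos fun i _ => ?_, fun i => ?_⟩
    · have := ha0 i
      positivity
    · have h1 : |2 * a i| ∣ ∏ i, |2 * a i| := Finset.dvd_prod_of_mem _ (Finset.mem_univ i)
      exact (abs_dvd _ _).1 h1
  choose c hc using hMa
  obtain ⟨K, hK⟩ : ∃ K : ℕ, (K : ℤ) = 2 * M := ⟨(2 * M).toNat, Int.toNat_of_nonneg (by omega)⟩
  have hK0 : K ≠ 0 := by rintro rfl; simp at hK; omega
  have : NeZero K := ⟨hK0⟩
  -- the characters
  set χ : AddChar (ZMod K) ℂ := ZMod.stdAddChar with hχ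
  let q : (Fin r → ZMod K) → ZMod K := fun x => ∑ i, (c i : ZMod K) * x i ^ 2
  let Bm : Matrix (Fin r) (Fin r) (ZMod K) := (Pᵀ * A).map (Int.castRingHom (ZMod K))
  let Am : Matrix (Fin r) (Fin r) (ZMod K) := A.map (Int.castRingHom (ZMod K))
  let Pt : Matrix (Fin r) (Fin r) (ZMod K) := Pᵀ.map (Int.castRingHom (ZMod K))
  let Pm : Matrix (Fin r) (Fin r) (ZMod K) :=
    ((diagonal c * (Pᵀ * A))ᵀ).map (Int.castRingHom (ZMod K))
  let w : (Fin r → ZMod K) → (Fin r → ZMod K) := fun x => (2 : ZMod K) • (Pm *ᵥ x)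
  have hlift : ∀ x : Fin r → ZMod K, ∃ v : Fin r → ℤ, x = (Int.castRingHom (ZMod K)) ∘ v := by
    intro x
    choose v hv using fun i => ZMod.intCast_surjective (x i)
    exact ⟨v, funext fun i => (hv i).symm⟩
  have hq : ∀ v : Fin r → ℤ, q ((Int.castRingHom (ZMod K)) ∘ v) = ((Qz c v : ℤ) : ZMod K) := by
    intro v
    rw [Qz_eq]
    simp only [q]
    push_cast
    rfl
  have hB : ∀ l : Fin r → ℤ, Bm *ᵥ ((Int.castRingHom (ZMod K)) ∘ l) =
      (Int.castRingHom (ZMod K)) ∘ ((Pᵀ * A) *ᵥ l) := by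
    intro l
    funext i
    exact (RingHom.map_mulVec (Int.castRingHom (ZMod K)) (Pᵀ * A) l i).symm
  have hAm : ∀ l : Fin r → ℤ, Am *ᵥ ((Int.castRingHom (ZMod K)) ∘ l) =
      (Int.castRingHom (ZMod K)) ∘ (A *ᵥ l) := by
    intro l
    funext i
    exact (RingHom.map_mulVec (Int.castRingHom (ZMod K)) A l i).symm
  have hPt : ∀ l : Fin r → ℤ, Pt *ᵥ ((Int.castRingHom (ZMod K)) ∘ l) =
      (Int.castRingHom (ZMod K)) ∘ (Pᵀ *ᵥ l) := by
    intro l
    funext i
    exact (RingHom.map_mulVec (Int.castRingHom (ZMod K)) Pᵀ l i).symm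
  have hPm : ∀ l : Fin r → ℤ, Pm *ᵥ ((Int.castRingHom (ZMod K)) ∘ l) =
      (Int.castRingHom (ZMod K)) ∘ ((diagonal c * (Pᵀ * A))ᵀ *ᵥ l) := by
    intro l
    funext i
    exact (RingHom.map_mulVec (Int.castRingHom (ZMod K)) _ l i).symm
  have hKz : ∀ t : ℤ, ((M * (2 * t) : ℤ) : ZMod K) = 0 := by
    intro t
    have h1 : M * (2 * t) = (K : ℤ) * t := by rw [hK]; ring
    rw [h1]
    push_cast
    simp
  have key2 : ∀ x l : Fin r → ZMod K, q (x + Bm *ᵥ l) = q x + w x ⬝ᵥ l := by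
    intro x l
    obtain ⟨x, rfl⟩ := hlift x
    obtain ⟨l, rfl⟩ := hlift l
    obtain ⟨t, ht⟩ := even_form hA he l
    have h1 : (Int.castRingHom (ZMod K)) ∘ x + Bm *ᵥ ((Int.castRingHom (ZMod K)) ∘ l) =
        (Int.castRingHom (ZMod K)) ∘ (x + (Pᵀ * A) *ᵥ l) := by
      rw [hB]
      funext i
      simp
    rw [h1, hq, key1 hA hP hc hE, ht, Int.cast_add, hKz, add_zero, Int.cast_add, hq]
    congr 1
    simp only [w]
    rw [hPm, smul_dotProduct]
    simp only [dotProduct, Function.comp_apply, Int.coe_castRingHom, smul_eq_mul]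
    push_cast
    rfl
  have key4 : ∀ u : Fin r → ZMod K, ∑ l : Fin r → ZMod K, χ (u ⬝ᵥ l) =
      if u = 0 then (K : ℂ) ^ r else 0 := by
    intro u
    have h1 : ∀ l : Fin r → ZMod K, χ (u ⬝ᵥ l) = ∏ i, χ (l i * u i) := by
      intro l
      simp only [dotProduct]
      rw [chi_sum]
      exact Finset.prod_congr rfl fun i _ => by rw [mul_comm]
    simp only [h1]
    have h2 := Finset.prod_univ_sum (fun _ : Fin r => (Finset.univ : Finset (ZMod K)))
      (fun i x => χ (x * u i))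
    rw [Fintype.piFinset_univ] at h2
    rw [← h2]
    simp only [AddChar.sum_mulShift _ (ZMod.isPrimitive_stdAddChar K), hχ, ZMod.card]
    split_ifs with hu
    · subst hu
      simp
    · obtain ⟨i, hi⟩ := Function.ne_iff.1 hu
      have hi' : u i ≠ 0 := hi
      exact Finset.prod_eq_zero (Finset.mem_univ i) (by simp [hi'])
  -- matrix identities
  have hPs : P * diagonal c * Pᵀ * A = M • (1 : Matrix (Fin r) (Fin r) ℤ) := by
    have := mul_ps hP hc hE
    rw [← this]
    simp only [Matrix.mul_assoc]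
  have hPs' : A * (P * diagonal c * Pᵀ) = M • (1 : Matrix (Fin r) (Fin r) ℤ) := by
    have h1 := congrArg transpose hPs
    rw [transpose_mul, transpose_mul, transpose_mul, transpose_transpose, diagonal_transpose, hA.eq, transpose_smul,
      transpose_one] at h1
    rw [← h1]
    simp only [Matrix.mul_assoc]
  have hNM : N • (P * diagonal c * Pᵀ) = M • A' := by
    have h1 : P * diagonal c * Pᵀ * A * A' = (M • (1 : Matrix (Fin r) (Fin r) ℤ)) * A' := by rw [hPs]
    rw [Matrix.mul_assoc _ A A', hAA, Matrix.mul_smul, Matrix.mul_one, Matrix.smul_mul, Matrix.one_mul] at h1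
    exact h1
  -- the kernel of `w` is the image of `Pt`
  have wPt : ∀ u : Fin r → ZMod K, w (Pt *ᵥ u) = 0 := by
    intro u
    obtain ⟨u, rfl⟩ := hlift u
    simp only [w]
    rw [hPt, hPm, mulVec_mulVec]
    have h1 : (diagonal c * (Pᵀ * A))ᵀ * Pᵀ = M • (1 : Matrix (Fin r) (Fin r) ℤ) := by
      rw [← hPs', transpose_mul, transpose_mul, transpose_transpose, diagonal_transpose, hA.eq]
      simp only [Matrix.mul_assoc]
    rw [h1, smul_mulVec, one_mulVec]
    funext i
    have h2 := hKz (u i)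
    simp only [Pi.smul_apply, Function.comp_apply, smul_eq_mul, Pi.zero_apply, Int.coe_castRingHom] at h2 ⊢
    rw [← h2]
    push_cast
    ring
  have key5 : ∀ x : Fin r → ZMod K, w x = 0 → ∃ u, x = Pt *ᵥ u := by
    intro x hx
    obtain ⟨x, rfl⟩ := hlift x
    have h1 : ∀ j, ∃ z : ℤ, ((diagonal c * (Pᵀ * A))ᵀ *ᵥ x) j = M * z := by
      intro j
      have h2 := congrFun hx j
      simp only [w] at h2
      rw [hPm] at h2
      have h3 : (((2 * ((diagonal c * (Pᵀ * A))ᵀ *ᵥ x) j : ℤ)) : ZMod K) = 0 := by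
        push_cast
        simpa using h2
      rw [ZMod.intCast_zmod_eq_zero_iff_dvd, hK] at h3
      exact (mul_dvd_mul_iff_left (by norm_num)).1 h3
    choose z hz using h1
    have hz' : (diagonal c * (Pᵀ * A))ᵀ *ᵥ x = M • z := funext fun j => by rw [hz j]; rfl
    have h4 : M • x = M • (Pᵀ *ᵥ z) := by
      rw [← mulVec_smul, ← hz', mulVec_mulVec, ← transpose_mul, ps_mul hc hE, transpose_smul,
        transpose_one, smul_mulVec, one_mulVec]
    have h5 : x = Pᵀ *ᵥ z := by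
      funext j
      have := congrFun h4 j
      simp only [Pi.smul_apply, smul_eq_mul] at this
      exact mul_left_cancel₀ hM0.ne' this
    exact ⟨(Int.castRingHom (ZMod K)) ∘ z, by rw [hPt, ← h5]⟩
  -- the sum
  set S : ℂ := ∑ x : Fin r → ZMod K, χ (q x) with hS
  have hKC : ((K : ℂ) ^ r) ≠ 0 := pow_ne_zero _ (by exact_mod_cast hK0)
  have key6 : S = ∑ x ∈ Finset.univ.filter (fun x : Fin r → ZMod K => w x = 0), χ (q x) := by
    have h1 : ∀ l : Fin r → ZMod K, S = ∑ x : Fin r → ZMod K, χ (q x) * χ (w x ⬝ᵥ l) := by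
      intro l
      rw [hS, ← Equiv.sum_comp (Equiv.addRight (Bm *ᵥ l)) (fun x => χ (q x))]
      refine Finset.sum_congr rfl fun x _ => ?_
      rw [Equiv.coe_addRight, key2, AddChar.map_add_eq_mul]
    have h2 : (K : ℂ) ^ r * S = ∑ l : Fin r → ZMod K, S := by
      rw [Finset.sum_const, Finset.card_univ, Fintype.card_pi]
      simp
    have h3 : (K : ℂ) ^ r * S = (K : ℂ) ^ r *
        ∑ x ∈ Finset.univ.filter (fun x : Fin r → ZMod K => w x = 0), χ (q x) := by
      rw [h2, Finset.sum_congr rfl (fun l _ => h1 l), Finset.sum_comm]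
      simp only [← Finset.mul_sum, key4]
      rw [Finset.sum_filter, Finset.mul_sum]
      refine Finset.sum_congr rfl fun x _ => ?_
      split_ifs with hx
      · ring
      · ring
    exact mul_left_cancel₀ hKC h3
  -- evaluation
  have key7 : ∃ ρ : ℝ, 0 < ρ ∧ S = ρ * Complex.exp ((r : ℂ) * (Real.pi * Complex.I / 4)) := by
    choose ρ hρ hρs using fun i => gauss_one h (a i) (c i) (ha0 i) K (by
      rw [hK, hc i]; ring)
    refine ⟨∏ i, ρ i, Finset.prod_pos fun i _ => hρ i, ?_⟩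
    have h1 : ∀ x : Fin r → ZMod K, χ (q x) = ∏ i, χ ((c i : ZMod K) * x i ^ 2) := by
      intro x
      simp only [q]
      rw [chi_sum]
    rw [hS]
    simp only [h1]
    have h2 := Finset.prod_univ_sum (fun _ : Fin r => (Finset.univ : Finset (ZMod K)))
      (fun i x => χ ((c i : ZMod K) * x ^ 2))
    rw [Fintype.piFinset_univ] at h2
    rw [← h2, Finset.prod_congr rfl (fun i _ => hρs i), Finset.prod_mul_distrib,
      ← Complex.exp_sum]
    simp only [fun i => Int.sign_eq_one_of_pos (ha i)]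
    push_cast
    rw [Finset.sum_const, Finset.card_univ, Fintype.card_fin, nsmul_eq_mul, one_mul]
  obtain ⟨ρ, hρ, hSρ⟩ := key7
  -- the sum over the box
  let F : (Fin r → ZMod K) →+ (Fin r → ZMod K) := Pt.mulVecLin.toAddMonoidHom
  have hF : ∀ u, F u = Pt *ᵥ u := fun u => rfl
  obtain ⟨n₁, hn₁⟩ : ∃ n₁ : ℕ, n₁ = (Finset.univ.filter (fun u => F u = 0)).card := ⟨_, rfl⟩
  have hn₁0 : 0 < n₁ := by
    rw [hn₁]
    exact Finset.card_pos.2 ⟨0, by simp⟩
  have hbox1 : ∑ u : Fin r → ZMod K, χ (q (Pt *ᵥ u)) = (n₁ : ℂ) * S := by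
    have h1 := Finset.sum_comp (s := (Finset.univ : Finset (Fin r → ZMod K))) (fun x => χ (q x)) F
    have h2 : Finset.univ.image F = Finset.univ.filter (fun x : Fin r → ZMod K => w x = 0) := by
      ext x
      rw [Finset.mem_image, Finset.mem_filter]
      constructor
      · rintro ⟨u, -, rfl⟩
        exact ⟨Finset.mem_univ _, wPt u⟩
      · rintro ⟨-, hx⟩
        obtain ⟨u, hu⟩ := key5 x hx
        exact ⟨u, Finset.mem_univ _, hu.symm⟩
    have h3 : ∑ u : Fin r → ZMod K, χ (q (Pt *ᵥ u)) = ∑ u, χ (q (F u)) := rfl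
    rw [h3, h1, h2, key6, Finset.mul_sum]
    refine Finset.sum_congr rfl fun x hx => ?_
    rw [← h2, Finset.mem_image] at hx
    obtain ⟨u, -, rfl⟩ := hx
    have h4 := AddMonoidHom.card_fiber_eq_of_mem_range F (x := F u) (y := 0) ⟨u, rfl⟩ ⟨0, map_zero F⟩
    rw [nsmul_eq_mul]
    congr 1
    rw [hn₁]
    exact_mod_cast h4
  -- the sum over `T`
  obtain ⟨U, hU⟩ : ∃ U : Finset (Fin r → ZMod K), U = Finset.univ.image (fun v => Am *ᵥ v) := ⟨_, rfl⟩
  have hU0 : 0 < U.card := by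
    rw [hU]
    exact Finset.card_pos.2 ⟨Am *ᵥ 0, Finset.mem_image_of_mem _ (Finset.mem_univ _)⟩
  let e : (Fin r → ℤ) → ℂ := fun t => χ (q (Pt *ᵥ ((Int.castRingHom (ZMod K)) ∘ t)))
  have hbox2 : ∑ u : Fin r → ZMod K, χ (q (Pt *ᵥ u)) = (U.card : ℂ) * ∑ t ∈ T, e t := by
    have h1 : ∑ p ∈ T ×ˢ U, e p.1 = ∑ u : Fin r → ZMod K, χ (q (Pt *ᵥ u)) := by
      refine Finset.sum_nbij (fun p => (Int.castRingHom (ZMod K)) ∘ p.1 + p.2) ?_ ?_ ?_ ?_
      · intro p _
        exact Finset.mem_univ _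
      · rintro ⟨t, u⟩ hp ⟨t', u'⟩ hp' heq
        rw [Finset.mem_coe, Finset.mem_product] at hp hp'
        obtain ⟨ht, hu⟩ := hp
        obtain ⟨ht', hu'⟩ := hp'
        simp only at ht hu ht' hu' heq
        rw [hU, Finset.mem_image] at hu hu'
        obtain ⟨v, -, rfl⟩ := hu
        obtain ⟨v', -, rfl⟩ := hu'
        obtain ⟨v, rfl⟩ := hlift v
        obtain ⟨v', rfl⟩ := hlift v'
        rw [hAm, hAm] at heq
        have h2 : ∀ i, ∃ s : ℤ, (t - t') i - (A *ᵥ (v' - v)) i = M * (2 * s) := by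
          intro i
          have h3 := congrFun heq i
          simp only [Pi.add_apply, Function.comp_apply, Int.coe_castRingHom] at h3
          have h4 : (((t - t') i - (A *ᵥ (v' - v)) i : ℤ) : ZMod K) = 0 := by
            rw [mulVec_sub]
            simp only [Pi.sub_apply]
            push_cast
            linear_combination h3
          rw [ZMod.intCast_zmod_eq_zero_iff_dvd, hK] at h4
          obtain ⟨s, hs⟩ := h4
          exact ⟨s, by rw [hs]; ring⟩
        choose s hs using h2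
        have h5 : t - t' = A *ᵥ ((v' - v) + (P * diagonal c * Pᵀ) *ᵥ ((2 : ℤ) • s)) := by
          rw [mulVec_add, mulVec_mulVec, hPs', smul_mulVec, one_mulVec]
          funext i
          have := hs i
          simp only [Pi.add_apply, Pi.smul_apply, smul_eq_mul]
          linarith
        obtain ⟨x, -, hx⟩ := hT t
        have h6 := hx t ⟨ht, 0, by rw [mulVec_zero, sub_self]⟩
        have h7 := hx t' ⟨ht', _, h5⟩
        have h8 : t = t' := h6.trans h7.symm
        subst h8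
        rw [hAm, hAm]
        have h9 : (Int.castRingHom (ZMod K)) ∘ (A *ᵥ v) = (Int.castRingHom (ZMod K)) ∘ (A *ᵥ v') :=
          add_left_cancel heq
        rw [h9]
      · intro x _
        obtain ⟨z, rfl⟩ := hlift x
        obtain ⟨t, ⟨ht, v, hv⟩, -⟩ := hT z
        refine ⟨(t, Am *ᵥ ((Int.castRingHom (ZMod K)) ∘ v)), ?_, ?_⟩
        · rw [Finset.mem_coe, Finset.mem_product, hU]
          exact ⟨ht, Finset.mem_image_of_mem _ (Finset.mem_univ _)⟩
        · simp only
          rw [hAm]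
          funext i
          have := congrFun hv i
          simp only [Pi.sub_apply] at this
          simp only [Pi.add_apply, Function.comp_apply, Int.coe_castRingHom]
          rw [← this]
          push_cast
          ring
      · rintro ⟨t, u⟩ hp
        rw [Finset.mem_product] at hp
        obtain ⟨ht, hu⟩ := hp
        simp only at ht hu
        rw [hU, Finset.mem_image] at hu
        obtain ⟨v, -, rfl⟩ := hu
        simp only [e]
        have h2 : Pt *ᵥ (Am *ᵥ v) = Bm *ᵥ v := by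
          rw [mulVec_mulVec]
          congr 1
          simp only [Pt, Am, Bm]
          rw [Matrix.map_mul]
        rw [mulVec_add, h2, key2, wPt, zero_dotProduct, add_zero]
    rw [← h1, Finset.sum_product]
    simp only [Finset.sum_const, nsmul_eq_mul]
    rw [Finset.mul_sum]
  -- the value of `e`
  have he' : ∀ t : Fin r → ℤ, e t = Complex.exp (2 * Real.pi * Complex.I * (((t ⬝ᵥ (A' *ᵥ t) : ℤ) : ℂ) / (2 * (N : ℂ)))) := by
    intro t
    simp only [e]
    rw [hPt, hq, hχ, ZMod.stdAddChar_coe]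
    congr 1
    have h1 : N * Qz c (Pᵀ *ᵥ t) = M * (t ⬝ᵥ (A' *ᵥ t)) := by
      have h2 : Qz c (Pᵀ *ᵥ t) = t ⬝ᵥ ((P * diagonal c * Pᵀ) *ᵥ t) := by
        unfold Qz
        rw [← mulVec_mulVec, ← mulVec_mulVec, dotProduct_mulVec t P, ← mulVec_transpose]
      rw [h2, ← smul_eq_mul, ← dotProduct_smul, ← smul_mulVec, hNM, smul_mulVec, dotProduct_smul, smul_eq_mul]
    have h2 : (K : ℂ) = 2 * M := by exact_mod_cast hK
    have h3 : (N : ℂ) * (Qz c (Pᵀ *ᵥ t) : ℤ) = M * ((t ⬝ᵥ (A' *ᵥ t) : ℤ) : ℂ) := by exact_mod_cast h1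
    have hM' : (M : ℂ) ≠ 0 := by exact_mod_cast hM0.ne'
    have hN' : (N : ℂ) ≠ 0 := by exact_mod_cast hN
    rw [h2]
    field_simp
    linear_combination h3
  have hfin : (U.card : ℂ) * ∑ t ∈ T, e t = (n₁ : ℂ) * S := by rw [← hbox2, hbox1]
  refine ⟨n₁ * ρ / U.card, by positivity, ?_⟩
  rw [← Finset.sum_congr rfl fun t _ => he' t]
  have hUC : (U.card : ℂ) ≠ 0 := by exact_mod_cast hU0.ne'
  rw [hSρ] at hfin
  push_cast
  rw [div_mul_eq_mul_div, eq_div_iff hUC, mul_comm, hfin]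
  ring

end Pool.Agent.U858.UF
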